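import Pool.Agent.Lib.MP_e43fce_nt_bt.Terras

set_option autoImplicit false

namespace Pool.Agent.Lib.MP_e43fce_nt_bt

open Finset

theorem big_ineq : 485 ^ 9700 ≤ 2 ^ 9215 * 179 ^ 3580 * 306 ^ 6120 := by decide +kernel

theorem big_ineq' : ((485 : ℝ) / 179) ^ 9700 ≤ 2 ^ 9215 * (306 / 179) ^ 6120 := by
  have h : ((485 : ℝ)) ^ 9700 ≤ 2 ^ 9215 * 179 ^ 3580 * 306 ^ 6120 := by
    exact_mod_cast big_ineq
  rw [div_pow, div_pow, div_le_iff₀ (by positivity)]
  have e : (2 : ℝ) ^ 9215 * (306 ^ 6120 / 179 ^ 6120) * 179 ^ 9700 =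
      2 ^ 9215 * 179 ^ 3580 * 306 ^ 6120 := by
    have : (179 : ℝ) ^ 9700 = 179 ^ 3580 * 179 ^ 6120 := by rw [← pow_add]
    rw [this]
    field_simp
  rw [e]
  exact h

/-- `w = 2^(19/20)` -/
noncomputable def w : ℝ := (2 : ℝ) ^ ((19 : ℝ) / 20)

theorem w_pos : 0 < w := by unfold w; positivity

theorem w_pow : w ^ 20 = 2 ^ 19 := by
  unfold w
  rw [← Real.rpow_natCast, ← Real.rpow_mul (by norm_num)]
  norm_num

theorem w_ge : 19 / 10 ≤ w := by
  have h : ((19 : ℝ) / 10) ^ 20 ≤ w ^ 20 := by rw [w_pow]; norm_num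
  exact le_of_pow_le_pow_left₀ (by norm_num) w_pos.le h

theorem w_le : w ≤ 2 := by
  have h : w ^ 20 ≤ 2 ^ 20 := by rw [w_pow]; norm_num
  exact le_of_pow_le_pow_left₀ (by norm_num) (by norm_num) h

theorem le_w_pow (j : ℕ) : (j : ℝ) ≤ w ^ j := by
  have hw := w_ge
  have hj : ∀ j : ℕ, 2 ≤ j → (j : ℝ) ≤ w ^ j := by
    intro j hj
    induction j, hj using Nat.le_induction with
    | base => push_cast; nlinarith
    | succ j h2 ih =>
      have h5 : (2 : ℝ) ≤ j := by exact_mod_cast h2
      rw [pow_succ]; push_cast; nlinarith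
  rcases Nat.lt_or_ge j 2 with h | h
  · have : j = 0 ∨ j = 1 := by omega
    rcases this with h | h
    · subst h; norm_num
    · subst h; rw [pow_one]; push_cast; linarith
  · exact hj j h

/-- residues with too many odd steps -/
def bad (j : ℕ) : Finset ℕ := (range (2 ^ j)).filter (fun m => 306 * j < 485 * od j m)

theorem card_bad (j : ℕ) : ((bad j).card : ℝ) ≤ w ^ j := by
  have hsum := sum_weight (306 / 179) j
  have ht : (1 : ℝ) < 306 / 179 := by norm_num
  -- s = t^(306/485)
  set s : ℝ := ((306 / 179 : ℝ) ^ 306) ^ ((1 : ℝ) / 485) with hs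
  have hs0 : 0 < s := by positivity
  have hs1 : s ^ 485 = (306 / 179 : ℝ) ^ 306 := by
    rw [hs, ← Real.rpow_natCast, ← Real.rpow_mul (by positivity)]
    norm_num
  have hw := w_pos
  have key : (1 + 306 / 179 : ℝ) ≤ w * s := by
    apply le_of_pow_le_pow_left₀ (n := 9700) (by norm_num) (by positivity)
    have e1 : (w * s) ^ 9700 = 2 ^ 9215 * (306 / 179) ^ 6120 := by
      rw [mul_pow, show 9700 = 20 * 485 by norm_num, pow_mul w, w_pow, ← pow_mul,
        show 20 * 485 = 485 * 20 by norm_num, pow_mul s, hs1, ← pow_mul]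
    rw [e1, show (1 + 306 / 179 : ℝ) = 485 / 179 by norm_num]
    exact big_ineq'
  have h1 : ((bad j).card : ℝ) * s ^ j ≤ (1 + 306 / 179) ^ j := by
    rw [← hsum]
    calc ((bad j).card : ℝ) * s ^ j = ∑ m ∈ bad j, s ^ j := by
          rw [sum_const, nsmul_eq_mul]
      _ ≤ ∑ m ∈ bad j, (306 / 179 : ℝ) ^ od j m := by
          apply sum_le_sum
          intro m hm
          simp only [bad, mem_filter] at hm
          apply le_of_pow_le_pow_left₀ (n := 485) (by norm_num) (by positivity)
          rw [← pow_mul, mul_comm j, pow_mul s, hs1, ← pow_mul, ← pow_mul]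
          apply pow_le_pow_right₀ ht.le
          rw [mul_comm (od j m)]
          exact hm.2.le
      _ ≤ ∑ m ∈ range (2 ^ j), (306 / 179 : ℝ) ^ od j m := by
          apply sum_le_sum_of_subset_of_nonneg (filter_subset _ _)
          intro m _ _
          positivity
  have h2 : (1 + 306 / 179 : ℝ) ^ j ≤ w ^ j * s ^ j := by
    rw [← mul_pow]
    exact pow_le_pow_left₀ (by norm_num) key j
  have h3 : 0 < s ^ j := by positivity
  exact le_of_mul_le_mul_right (h1.trans h2) h3

theorem exists_J : ∃ J : ℕ, ∀ j ≥ J, 4 ^ 485 * (3 ^ 306) ^ j < (2 ^ 485) ^ j := by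
  have h0 : 3 ^ 306 < 2 ^ 485 := by decide +kernel
  have h0' : (3 : ℝ) ^ 306 < 2 ^ 485 := by exact_mod_cast h0
  have h1 : (1 : ℝ) < 2 ^ 485 / 3 ^ 306 := by
    rw [lt_div_iff₀ (by positivity), one_mul]; exact h0'
  have h2 := tendsto_pow_atTop_atTop_of_one_lt h1
  obtain ⟨J, hJ⟩ := Filter.eventually_atTop.mp (h2.eventually_gt_atTop (4 ^ 485))
  refine ⟨J, fun j hj => ?_⟩
  have h3 := hJ j hj
  rw [div_pow, lt_div_iff₀ (by positivity)] at h3
  exact_mod_cast h3

theorem descend {j m : ℕ} (hj : 4 ^ 485 * (3 ^ 306) ^ j < (2 ^ 485) ^ j) (hm : m < 2 ^ j)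
    (hb : m ∉ bad j) : 2 * T^[j] m < 2 ^ j := by
  have hg := growth j m
  have hod : 485 * od j m ≤ 306 * j := by
    by_contra h
    exact hb (mem_filter.mpr ⟨mem_range.mpr hm, by omega⟩)
  have h1 : 2 ^ j * T^[j] m ≤ 2 ^ j * (2 * 3 ^ od j m) := by
    calc 2 ^ j * T^[j] m ≤ 3 ^ od j m * (m + 2 ^ j) := hg
      _ ≤ 3 ^ od j m * (2 ^ j + 2 ^ j) := Nat.mul_le_mul_left _ (by omega)
      _ = _ := by ring
  have h2 : T^[j] m ≤ 2 * 3 ^ od j m := Nat.le_of_mul_le_mul_left h1 (by positivity)
  have h3 : 4 * 3 ^ od j m < 2 ^ j := by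
    by_contra hcon
    push Not at hcon
    have h4 : (2 ^ j) ^ 485 ≤ (4 * 3 ^ od j m) ^ 485 := Nat.pow_le_pow_left hcon 485
    have h5 : (4 * 3 ^ od j m) ^ 485 ≤ 4 ^ 485 * (3 ^ 306) ^ j := by
      rw [mul_pow, ← pow_mul, ← pow_mul, mul_comm (od j m)]
      exact Nat.mul_le_mul_left _ (Nat.pow_le_pow_right (by norm_num) hod)
    have h6 : (2 ^ j) ^ 485 = (2 ^ 485) ^ j := by rw [← pow_mul, ← pow_mul, mul_comm]
    rw [h6] at h4
    omega
  omega

/-- Main counting estimate for segments of distinct elements. -/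
theorem count_pow : ∃ K : ℝ, 0 < K ∧ ∀ n P : ℕ, Set.InjOn (fun k => T^[k] n) (range P : Set ℕ) →
    ∀ j, (((range P).filter (fun k => T^[k] n < 2 ^ j)).card : ℝ) ≤ K * w ^ j := by
  obtain ⟨J, hJ⟩ := exists_J
  refine ⟨2 ^ J + 5, by positivity, fun n P hinj j => ?_⟩
  have hw1 : 1 ≤ w := by linarith [w_ge]
  have triv : ∀ j, ((range P).filter (fun k => T^[k] n < 2 ^ j)).card ≤ 2 ^ j := by
    intro j
    have := card_le_card_of_injOn (s := (range P).filter (fun k => T^[k] n < 2 ^ j))
      (t := range (2 ^ j)) (fun k => T^[k] n)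
      (by
        intro k hk
        have := (mem_filter.mp hk).2
        simpa using this)
      (by
        intro a ha b hb h
        apply hinj _ _ h
        · exact mem_coe.mpr (mem_filter.mp ha).1
        · exact mem_coe.mpr (mem_filter.mp hb).1)
    simpa using this
  induction j with
  | zero =>
    have h := triv 0
    have h' : (((range P).filter (fun k => T^[k] n < 2 ^ 0)).card : ℝ) ≤ 1 := by
      exact_mod_cast h
    have : (0 : ℝ) < 2 ^ J := by positivity
    have e : w ^ 0 = 1 := pow_zero w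
    rw [e, mul_one]
    linarith
  | succ j ih =>
    rcases Nat.lt_or_ge (j + 1) J with hlt | hge
    · have h := triv (j + 1)
      have h1 : (((range P).filter (fun k => T^[k] n < 2 ^ (j + 1))).card : ℝ) ≤ 2 ^ (j + 1) := by
        exact_mod_cast h
      have h2 : (2 : ℝ) ^ (j + 1) ≤ 2 ^ J := pow_le_pow_right₀ (by norm_num) hlt.le
      have h3 : 1 ≤ w ^ (j + 1) := one_le_pow₀ hw1
      have h4 : (0 : ℝ) < 2 ^ J := by positivity
      nlinarith
    · -- splitting
      have hsub : (range P).filter (fun k => T^[k] n < 2 ^ (j + 1)) ⊆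
          ((range P).filter (fun k => T^[k] n ∈ bad (j + 1))) ∪
          (((range P).filter (fun k => k + (j + 1) < P ∧ T^[k + (j + 1)] n < 2 ^ j)) ∪
            Finset.Ico (P - (j + 1)) P) := by
        intro k hk
        rw [mem_filter, mem_range] at hk
        rw [mem_union, mem_union, mem_filter, mem_filter, mem_range, mem_Ico]
        by_cases hb : T^[k] n ∈ bad (j + 1)
        · exact Or.inl ⟨hk.1, hb⟩
        · right
          rcases Nat.lt_or_ge (k + (j + 1)) P with h | h
          · left
            refine ⟨hk.1, h, ?_⟩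
            have := descend (hJ (j + 1) hge) hk.2 hb
            rw [← Function.iterate_add_apply] at this
            rw [Nat.add_comm]
            rw [pow_succ] at this
            omega
          · right
            constructor <;> omega
      have c1 : ((range P).filter (fun k => T^[k] n ∈ bad (j + 1))).card ≤ (bad (j + 1)).card := by
        apply card_le_card_of_injOn (fun k => T^[k] n)
        · intro k hk
          exact (mem_filter.mp hk).2
        · intro a ha b hb h
          apply hinj _ _ h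
          · exact mem_coe.mpr (mem_filter.mp ha).1
          · exact mem_coe.mpr (mem_filter.mp hb).1
      have c2 : ((range P).filter (fun k => k + (j + 1) < P ∧ T^[k + (j + 1)] n < 2 ^ j)).card ≤
          ((range P).filter (fun k => T^[k] n < 2 ^ j)).card := by
        apply card_le_card_of_injOn (fun k => k + (j + 1))
        · intro k hk
          have := (mem_filter.mp hk).2
          exact mem_filter.mpr ⟨mem_range.mpr this.1, this.2⟩
        · intro a _ b _ h
          simpa using h
      have c3 : (Finset.Ico (P - (j + 1)) P).card ≤ j + 1 := by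
        rw [Nat.card_Ico]; omega
      have hcard := card_le_card hsub
      have hcard2 := card_union_le ((range P).filter (fun k => T^[k] n ∈ bad (j + 1)))
        (((range P).filter (fun k => k + (j + 1) < P ∧ T^[k + (j + 1)] n < 2 ^ j)) ∪
            Finset.Ico (P - (j + 1)) P)
      have hcard3 := card_union_le
        ((range P).filter (fun k => k + (j + 1) < P ∧ T^[k + (j + 1)] n < 2 ^ j))
            (Finset.Ico (P - (j + 1)) P)
      have htot : ((range P).filter (fun k => T^[k] n < 2 ^ (j + 1))).card ≤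
          (bad (j + 1)).card + (((range P).filter (fun k => T^[k] n < 2 ^ j)).card + (j + 1)) := by
        omega
      have htot' : (((range P).filter (fun k => T^[k] n < 2 ^ (j + 1))).card : ℝ) ≤
          (bad (j + 1)).card + ((((range P).filter (fun k => T^[k] n < 2 ^ j)).card : ℝ)
            + ((j + 1 : ℕ) : ℝ)) := by
        exact_mod_cast htot
      have hb := card_bad (j + 1)
      have hl := le_w_pow (j + 1)
      have hp : 0 < w ^ j := pow_pos w_pos j
      have h4 : (0 : ℝ) < 2 ^ J := by positivity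
      have e : w ^ (j + 1) = w ^ j * w := pow_succ w j
      rw [e] at hb hl ⊢
      have hw2 := w_ge
      have hw3 := w_le
      have hfin : w ^ j * w + ((2 ^ J + 5) * w ^ j + w ^ j * w) ≤ (2 ^ J + 5) * (w ^ j * w) := by
        have : 2 * w + (2 ^ J + 5) ≤ (2 ^ J + 5) * w := by nlinarith
        nlinarith
      linarith

end Pool.Agent.Lib.MP_e43fce_nt_bt
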