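import Pool.Agent.Lib.MP_e43fce_nt_bt.Orbit

set_option autoImplicit false

namespace Pool.Agent.Lib.MP_e43fce_nt_bt

open Finset

theorem iterate_mem (g : ℕ → ℕ) (S : Set ℕ) (h : ∀ n ∈ S, g n ∈ S) (k : ℕ) :
    ∀ n ∈ S, g^[k] n ∈ S := by
  induction k with
  | zero => intro n hn; exact hn
  | succ k ih =>
    intro n hn
    rw [Function.iterate_succ_apply']
    exact h _ (ih n hn)

theorem iterate_injOn (g : ℕ → ℕ) (S : Set ℕ) (h : ∀ n ∈ S, g n ∈ S) (hi : Set.InjOn g S) (k : ℕ) :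
    Set.InjOn (g^[k]) S := by
  induction k with
  | zero => intro a _ b _ hab; simpa using hab
  | succ k ih =>
    intro a ha b hb hab
    rw [Function.iterate_succ_apply', Function.iterate_succ_apply'] at hab
    exact ih ha hb (hi (iterate_mem g S h k a ha) (iterate_mem g S h k b hb) hab)

open Classical in
/-- counting a forward invariant set on which `T` is injective, in windows -/
theorem count_set : ∃ K : ℝ, 0 < K ∧ ∀ S : Set ℕ, (∀ n ∈ S, T n ∈ S) → Set.InjOn T S → ∀ j y,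
    (((Ico y (y + 2 ^ j)).filter (fun m => m ∈ S)).card : ℝ) ≤ K * w ^ j := by
  obtain ⟨J, hJ⟩ := exists_J'
  refine ⟨2 ^ J + 5, by positivity, fun S hS hinj j => ?_⟩
  have hw1 : 1 ≤ w := by linarith [w_ge]
  have h4 : (0 : ℝ) < 2 ^ J := by positivity
  have triv : ∀ j y, ((Ico y (y + 2 ^ j)).filter (fun m => m ∈ S)).card ≤ 2 ^ j := by
    intro j y
    refine (card_filter_le _ _).trans ?_
    rw [Nat.card_Ico, Nat.add_sub_cancel_left]
  induction j using Nat.strong_induction_on with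
  | _ j ih =>
    intro y
    rcases Nat.lt_or_ge j J with hlt | hge
    · have h := triv j y
      have h1 : (((Ico y (y + 2 ^ j)).filter (fun m => m ∈ S)).card : ℝ) ≤ 2 ^ j := by
        exact_mod_cast h
      have h2 : (2 : ℝ) ^ j ≤ 2 ^ J := pow_le_pow_right₀ (by norm_num) hlt.le
      have h3 : 1 ≤ w ^ j := one_le_pow₀ hw1
      nlinarith
    · obtain ⟨A, hA⟩ : ∃ A, A = 306 * j / 485 := ⟨_, rfl⟩
      have hJj := hJ j hge
      rw [← hA] at hJj
      have hsub : (Ico y (y + 2 ^ j)).filter (fun m => m ∈ S) ⊆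
          ((Ico y (y + 2 ^ j)).filter (fun m => m % 2 ^ j ∈ bad j)) ∪
          ((range (A + 1)).biUnion (fun a => (Ico y (y + 2 ^ j)).filter (fun m => m ∈ S ∧
            (3 ^ a * y / 2 ^ j ≤ T^[j] m ∧ T^[j] m < 3 ^ a * y / 2 ^ j +
              2 ^ (Nat.clog 2 (2 * 3 ^ a + 1)))))) := by
        intro m hm
        rw [mem_filter, mem_Ico] at hm
        rw [mem_union, mem_filter, mem_biUnion, mem_Ico]
        by_cases hb : m % 2 ^ j ∈ bad j
        · exact Or.inl ⟨hm.1, hb⟩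
        · right
          have hodc : od j (m % 2 ^ j) = od j m := by
            apply od_congr
            rw [Nat.mod_mod]
          have hod : 485 * od j m ≤ 306 * j := by
            by_contra hcon
            apply hb
            refine mem_filter.mpr ⟨mem_range.mpr (Nat.mod_lt _ (by positivity)), ?_⟩
            rw [hodc]
            omega
          refine ⟨od j m, mem_range.mpr (by omega), ?_⟩
          rw [mem_filter, mem_Ico]
          obtain ⟨w1, w2⟩ := window_image j y m hm.1.1 hm.1.2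
          refine ⟨hm.1, hm.2, w1, w2.trans_le ?_⟩
          exact Nat.add_le_add_left (Nat.le_pow_clog (by norm_num) _) _
      have c1 : ((Ico y (y + 2 ^ j)).filter (fun m => m % 2 ^ j ∈ bad j)).card ≤ (bad j).card := by
        apply card_le_card_of_injOn (fun m => m % 2 ^ j)
        · intro m hm
          exact (mem_filter.mp hm).2
        · intro a ha b hb h
          have ha' := mem_Ico.mp (mem_filter.mp ha).1
          have hb' := mem_Ico.mp (mem_filter.mp hb).1
          have h' : a ≡ b [MOD 2 ^ j] := h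
          obtain ⟨a1, a2⟩ := ha'
          obtain ⟨b1, b2⟩ := hb'
          obtain ⟨s, hs⟩ := Nat.exists_eq_add_of_le a1
          obtain ⟨t, ht⟩ := Nat.exists_eq_add_of_le b1
          rw [hs, ht] at h'
          have h'' := Nat.ModEq.add_left_cancel' y h'
          have := Nat.ModEq.eq_of_lt_of_lt h'' (by omega) (by omega)
          omega
      have c2 : ∀ a ∈ range (A + 1), (((Ico y (y + 2 ^ j)).filter (fun m => m ∈ S ∧
            (3 ^ a * y / 2 ^ j ≤ T^[j] m ∧ T^[j] m < 3 ^ a * y / 2 ^ j +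
              2 ^ (Nat.clog 2 (2 * 3 ^ a + 1))))).card : ℝ) ≤ (2 ^ J + 5) * (6 * v ^ a) := by
        intro a ha
        rw [mem_range] at ha
        have hpa : 1 ≤ 3 ^ a := Nat.one_le_pow _ _ (by norm_num)
        have haA : 3 ^ a ≤ 3 ^ A := Nat.pow_le_pow_right (by norm_num) (by omega)
        have hc1 : 2 ^ (Nat.clog 2 (2 * 3 ^ a + 1)) ≤ 6 * 3 ^ a := by
          have h5 := Nat.pow_pred_clog_lt_self (b := 2) (by norm_num) (x := 2 * 3 ^ a + 1) (by omega)
          have h6 : 0 < Nat.clog 2 (2 * 3 ^ a + 1) := Nat.clog_pos (by norm_num) (by omega)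
          obtain ⟨i, hi⟩ : ∃ i, Nat.clog 2 (2 * 3 ^ a + 1) = i + 1 :=
            ⟨Nat.clog 2 (2 * 3 ^ a + 1) - 1, by omega⟩
          rw [hi] at h5 ⊢
          rw [Nat.pred_succ] at h5
          rw [pow_succ]
          omega
        have hclt : Nat.clog 2 (2 * 3 ^ a + 1) < j := by
          by_contra hcon
          push Not at hcon
          have : 2 ^ j ≤ 2 ^ (Nat.clog 2 (2 * 3 ^ a + 1)) := Nat.pow_le_pow_right (by norm_num) hcon
          omega
        have h7 : ((Ico y (y + 2 ^ j)).filter (fun m => m ∈ S ∧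
            (3 ^ a * y / 2 ^ j ≤ T^[j] m ∧ T^[j] m < 3 ^ a * y / 2 ^ j +
              2 ^ (Nat.clog 2 (2 * 3 ^ a + 1))))).card ≤
            ((Ico (3 ^ a * y / 2 ^ j) (3 ^ a * y / 2 ^ j + 2 ^ (Nat.clog 2 (2 * 3 ^ a + 1)))).filter
              (fun m => m ∈ S)).card := by
          apply card_le_card_of_injOn (fun m => T^[j] m)
          · intro m hm
            have := (mem_filter.mp hm).2
            exact mem_filter.mpr ⟨mem_Ico.mpr this.2, iterate_mem T S hS j m this.1⟩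
          · intro a ha b hb h
            exact iterate_injOn T S hS hinj j (mem_filter.mp ha).2.1 (mem_filter.mp hb).2.1 h
        have h8 := ih _ hclt (3 ^ a * y / 2 ^ j)
        have h9 := w_pow_le _ a hc1
        calc (((Ico y (y + 2 ^ j)).filter (fun m => m ∈ S ∧
            (3 ^ a * y / 2 ^ j ≤ T^[j] m ∧ T^[j] m < 3 ^ a * y / 2 ^ j +
              2 ^ (Nat.clog 2 (2 * 3 ^ a + 1))))).card : ℝ) ≤
            (((Ico (3 ^ a * y / 2 ^ j)
              (3 ^ a * y / 2 ^ j + 2 ^ (Nat.clog 2 (2 * 3 ^ a + 1)))).filter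
              (fun m => m ∈ S)).card : ℝ) := by
              exact_mod_cast h7
          _ ≤ _ := h8
          _ ≤ _ := mul_le_mul_of_nonneg_left h9 (by positivity)
      have hcard := card_le_card hsub
      have hcard2 := hcard.trans (card_union_le _ _)
      have hcard3 := hcard2.trans (Nat.add_le_add c1 card_biUnion_le)
      have hcard5 : (((Ico y (y + 2 ^ j)).filter (fun m => m ∈ S)).card : ℝ) ≤
          (bad j).card + (∑ a ∈ range (A + 1), (((Ico y (y + 2 ^ j)).filter (fun m => m ∈ S ∧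
            (3 ^ a * y / 2 ^ j ≤ T^[j] m ∧ T^[j] m < 3 ^ a * y / 2 ^ j +
              2 ^ (Nat.clog 2 (2 * 3 ^ a + 1))))).card : ℝ)) := by
        exact_mod_cast hcard3
      have hsum : (∑ a ∈ range (A + 1), (((Ico y (y + 2 ^ j)).filter (fun m => m ∈ S ∧
            (3 ^ a * y / 2 ^ j ≤ T^[j] m ∧ T^[j] m < 3 ^ a * y / 2 ^ j +
              2 ^ (Nat.clog 2 (2 * 3 ^ a + 1))))).card : ℝ)) ≤ (2 ^ J + 5) * (12 * v ^ A) := by
        refine (sum_le_sum c2).trans ?_
        rw [← mul_sum, ← mul_sum]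
        have := geom_v A
        have h5 : 6 * ∑ a ∈ range (A + 1), v ^ a ≤ 12 * v ^ A := by linarith
        exact mul_le_mul_of_nonneg_left h5 (by positivity)
      have hb := card_bad j
      have hv := v_pow_le j A hJj
      have hp : 0 < w ^ j := pow_pos w_pos j
      have hfin : (2 ^ J + 5 : ℝ) * (12 * v ^ A) ≤ (2 ^ J + 5) * (w ^ j / 4) := by
        apply mul_le_mul_of_nonneg_left _ (by positivity)
        linarith
      have : (0 : ℝ) < 2 ^ J * w ^ j := by positivity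
      nlinarith

theorem col_eq (m : ℕ) : Col m = if m % 2 = 0 then m / 2 else 3 * m + 1 := rfl

theorem T_even {m : ℕ} (h : m % 2 = 0) : T m = Col m := by
  rw [T, Col, if_pos h, if_pos h]

theorem T_odd {m : ℕ} (h : m % 2 = 1) : T m = Col (Col m) := by
  have h1 : Col m = 3 * m + 1 := by rw [Col, if_neg (by omega)]
  rw [h1, Col, if_pos (by omega), T, if_neg (by omega)]

/-- power saving for forward invariant sets on which the Collatz map is injective -/
theorem setCol : ∃ K : ℝ, ∀ S : Set ℕ, (∀ n ∈ S, Col n ∈ S) → Set.InjOn Col S →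
    ∀ y x : ℕ, 0 < x → (({m : ℕ | m ∈ S ∧ y ≤ m ∧ m < y + x}).ncard : ℝ)
      ≤ K * (x : ℝ) ^ ((19 : ℝ) / 20) := by
  classical
  obtain ⟨K, hK, hT⟩ := count_set
  refine ⟨4 * K, fun S hS hinj y x hx => ?_⟩
  let S' : Set ℕ := {m | m ∈ S ∧ ∀ n ∈ S, n % 2 = 1 → m ≠ 3 * n + 1}
  have hodd : ∀ m, m % 2 = 1 → Col m = 3 * m + 1 := fun m h => by rw [Col, if_neg (by omega)]
  have hinv : ∀ m ∈ S', T m ∈ S' := by
    intro m hm
    rcases Nat.mod_two_eq_zero_or_one m with h0 | h0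
    · refine ⟨by rw [T_even h0]; exact hS _ hm.1, fun n hn hn1 he => ?_⟩
      rw [T_even h0, ← hodd n hn1] at he
      have := hinj hm.1 hn he
      omega
    · refine ⟨by rw [T_odd h0]; exact hS _ (hS _ hm.1), fun n hn hn1 he => ?_⟩
      rw [T_odd h0, ← hodd n hn1] at he
      have := hinj (hS _ hm.1) hn he
      rw [hodd m h0] at this
      omega
  have hinjT : Set.InjOn T S' := by
    intro a ha b hb hab
    rcases Nat.mod_two_eq_zero_or_one a with h0 | h0 <;>
      rcases Nat.mod_two_eq_zero_or_one b with h1 | h1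
    · rw [T_even h0, T_even h1] at hab
      exact hinj ha.1 hb.1 hab
    · rw [T_even h0, T_odd h1] at hab
      have := hinj ha.1 (hS _ hb.1) hab
      rw [hodd b h1] at this
      exact (ha.2 b hb.1 h1 this).elim
    · rw [T_odd h0, T_even h1] at hab
      have := hinj (hS _ ha.1) hb.1 hab
      rw [hodd a h0] at this
      exact (hb.2 a ha.1 h0 this.symm).elim
    · rw [T_odd h0, T_odd h1] at hab
      exact hinj ha.1 hb.1 (hinj (hS _ ha.1) (hS _ hb.1) hab)
  set L := Nat.log 2 x with hL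
  have hlog : 2 ^ L ≤ x := Nat.pow_log_le_self 2 hx.ne'
  have hlog2 : x < 2 ^ (L + 1) := Nat.lt_pow_succ_log_self (by norm_num) x
  let S1 : Finset ℕ := (Ico y (y + 2 ^ (L + 1))).filter (fun m => m ∈ S')
  let S2 : Finset ℕ := (Ico ((y - 1) / 3) ((y - 1) / 3 + 2 ^ (L + 1))).filter (fun m => m ∈ S')
  have hsub : {m : ℕ | m ∈ S ∧ y ≤ m ∧ m < y + x} ⊆
      ((S1 ∪ S2.image (fun m => 3 * m + 1) : Finset ℕ) : Set ℕ) := by
    intro m hm
    obtain ⟨hmS, hm1, hm2⟩ := hm
    rw [mem_coe, mem_union, mem_filter, mem_Ico, mem_image]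
    by_cases h : ∀ n ∈ S, n % 2 = 1 → m ≠ 3 * n + 1
    · exact Or.inl ⟨by omega, hmS, h⟩
    · right
      push Not at h
      obtain ⟨n, hn, hn1, rfl⟩ := h
      refine ⟨n, ?_, rfl⟩
      rw [mem_filter, mem_Ico]
      refine ⟨by omega, hn, fun k _ hk he => by omega⟩
  have hnc := Set.ncard_le_ncard hsub (Finset.finite_toSet _)
  rw [Set.ncard_coe_finset] at hnc
  have h1 := hT S' hinv hinjT (L + 1) y
  have h1' := hT S' hinv hinjT (L + 1) ((y - 1) / 3)
  have h2 : (S1 ∪ S2.image (fun m => 3 * m + 1)).card ≤ S1.card + S2.card := by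
    have a2 := card_union_le S1 (S2.image (fun m => 3 * m + 1))
    have a3 : (S2.image (fun m => 3 * m + 1)).card ≤ S2.card := card_image_le
    omega
  have h3 : ((({m : ℕ | m ∈ S ∧ y ≤ m ∧ m < y + x}).ncard : ℕ) : ℝ) ≤ S1.card + S2.card := by
    exact_mod_cast hnc.trans h2
  have h4 : w ^ L ≤ (x : ℝ) ^ ((19 : ℝ) / 20) := by
    rw [w_pow_eq]
    apply Real.rpow_le_rpow (by positivity) _ (by norm_num)
    exact_mod_cast hlog
  have h5 : w ^ (L + 1) ≤ 2 * (x : ℝ) ^ ((19 : ℝ) / 20) := by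
    rw [pow_succ]
    have hw := w_le
    have hw0 := w_pos
    have hp : 0 < w ^ L := pow_pos hw0 L
    nlinarith
  have h6 : K * w ^ (L + 1) ≤ K * (2 * (x : ℝ) ^ ((19 : ℝ) / 20)) :=
    mul_le_mul_of_nonneg_left h5 hK.le
  have e1 : (S1.card : ℝ) ≤ K * w ^ (L + 1) := by
    convert h1 using 3
    ext m
    simp only [S1, mem_filter]
  have e2 : (S2.card : ℝ) ≤ K * w ^ (L + 1) := by
    convert h1' using 3
    ext m
    simp only [S2, mem_filter]
  linarith

/-- the periodic points form such a set -/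
theorem periodic_inv (g : ℕ → ℕ) : ∀ n ∈ {m : ℕ | ∃ k, 0 < k ∧ g^[k] m = m},
    g n ∈ {m : ℕ | ∃ k, 0 < k ∧ g^[k] m = m} := by
  rintro n ⟨k, hk, hn⟩
  refine ⟨k, hk, ?_⟩
  rw [← Function.iterate_succ_apply, Function.iterate_succ_apply', hn]

theorem periodic_injOn (g : ℕ → ℕ) : Set.InjOn g {m : ℕ | ∃ k, 0 < k ∧ g^[k] m = m} := by
  rintro a ⟨k, hk, ha⟩ b ⟨l, hl, hb⟩ hab
  have pw : ∀ (c p : ℕ), g^[p] c = c → ∀ q, g^[q * p] c = c := by
    intro c p hp q
    induction q with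
    | zero => simp
    | succ q ih => rw [Nat.succ_mul, Function.iterate_add_apply, hp, ih]
  have ha' : g^[k * l] a = a := by rw [mul_comm]; exact pw a k ha l
  have hb' : g^[k * l] b = b := pw b l hb k
  have hkl : 0 < k * l := Nat.mul_pos hk hl
  obtain ⟨s, hs⟩ : ∃ s, k * l = s + 1 := ⟨k * l - 1, by omega⟩
  rw [hs, Function.iterate_succ_apply] at ha' hb'
  rw [← ha', ← hb', hab]

theorem mainSet (C : ℕ → ℕ) (hC : ∀ m, C m = if m % 2 = 0 then m / 2 else 3 * m + 1) :
    ∃ K : ℝ, (∀ S : Set ℕ, (∀ n ∈ S, C n ∈ S) → Set.InjOn C S →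
      ∀ y x : ℕ, 0 < x → (({m : ℕ | m ∈ S ∧ y ≤ m ∧ m < y + x}).ncard : ℝ)
        ≤ K * (x : ℝ) ^ ((19 : ℝ) / 20)) ∧
      ∀ x : ℕ, 0 < x → (({m : ℕ | 1 ≤ m ∧ m ≤ x ∧ ∃ k, 0 < k ∧ C^[k] m = m}).ncard : ℝ)
        ≤ K * (x : ℝ) ^ ((19 : ℝ) / 20) := by
  have : C = Col := funext hC
  subst this
  obtain ⟨K, hK⟩ := setCol
  refine ⟨K, hK, fun x hx => ?_⟩
  have h := hK _ (periodic_inv Col) (periodic_injOn Col) 1 x hx
  have e : {m : ℕ | 1 ≤ m ∧ m ≤ x ∧ ∃ k, 0 < k ∧ Col^[k] m = m} =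
      {m : ℕ | m ∈ {m : ℕ | ∃ k, 0 < k ∧ Col^[k] m = m} ∧ 1 ≤ m ∧ m < 1 + x} := by
    ext m
    simp only [Set.mem_ofPred_eq]
    constructor
    · rintro ⟨h1, h2, h3⟩
      exact ⟨h3, h1, by omega⟩
    · rintro ⟨h3, h1, h2⟩
      exact ⟨h1, by omega, h3⟩
  rw [e]
  exact h

end Pool.Agent.Lib.MP_e43fce_nt_bt
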