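import Pool.Agent.Lib.MP_e43fce_nt_bt.Window

set_option autoImplicit false

namespace Pool.Agent.Lib.MP_e43fce_nt_bt

open Finset

/-- the Collatz map -/
def Col (m : ℕ) : ℕ := if m % 2 = 0 then m / 2 else 3 * m + 1

theorem iterate_periodic (g : ℕ → ℕ) (n a b : ℕ) (hab : a < b) (h : g^[a] n = g^[b] n) (k : ℕ) :
    ∃ k' < b, g^[k'] n = g^[k] n := by
  induction k using Nat.strong_induction_on with
  | _ k ih =>
    rcases Nat.lt_or_ge k b with hk | hk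
    · exact ⟨k, hk, rfl⟩
    · obtain ⟨k', hk', he⟩ := ih (k - b + a) (by omega)
      refine ⟨k', hk', ?_⟩
      rw [he, Function.iterate_add_apply, h, ← Function.iterate_add_apply]
      congr 1
      omega

/-- every finite set of times can be replaced by times below some `P` at which the orbit
has not yet repeated -/
theorem exists_inj_range (g : ℕ → ℕ) (n : ℕ) (S : Finset ℕ) :
    ∃ P : ℕ, Set.InjOn (fun k => g^[k] n) (range P : Set ℕ) ∧
      ∀ k ∈ S, ∃ k' < P, g^[k'] n = g^[k] n := by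
  classical
  by_cases hinj : Function.Injective (fun k => g^[k] n)
  · refine ⟨S.sup id + 1, hinj.injOn, fun k hk => ⟨k, ?_, rfl⟩⟩
    exact Nat.lt_succ_of_le (le_sup (f := id) hk)
  · have hex : ∃ b : ℕ, ∃ a < b, g^[a] n = g^[b] n := by
      unfold Function.Injective at hinj
      push Not at hinj
      obtain ⟨a, b, h, hne⟩ := hinj
      rcases lt_or_gt_of_ne hne with h' | h'
      · exact ⟨b, a, h', h⟩
      · exact ⟨a, b, h', h.symm⟩
    obtain ⟨a, ha, he⟩ := Nat.find_spec hex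
    refine ⟨Nat.find hex, ?_, fun k _ => iterate_periodic g n a _ ha he k⟩
    intro x hx y hy hxy
    rw [coe_range, Set.mem_Iio] at hx hy
    by_contra hne
    rcases lt_or_gt_of_ne hne with h' | h'
    · exact Nat.find_min hex hy ⟨x, h', hxy⟩
    · exact Nat.find_min hex hx ⟨y, h', hxy.symm⟩

theorem orbitT : ∃ K : ℝ, 0 < K ∧ ∀ (n j y : ℕ) (S : Finset ℕ),
    (∀ m ∈ S, (y ≤ m ∧ m < y + 2 ^ j) ∧ ∃ k, T^[k] n = m) → (S.card : ℝ) ≤ K * w ^ j := by
  classical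
  obtain ⟨K, hK, hcount⟩ := count_window
  refine ⟨K, hK, fun n j y S hS => ?_⟩
  choose! idx hidx using fun m (hm : m ∈ S) => (hS m hm).2
  obtain ⟨P, hP, hP'⟩ := exists_inj_range T n (S.image idx)
  refine le_trans ?_ (hcount n P hP j y)
  have hsub : S ⊆ ((range P).filter (fun k => y ≤ T^[k] n ∧ T^[k] n < y + 2 ^ j)).image
      (fun k => T^[k] n) := by
    intro m hm
    obtain ⟨k', hk', he⟩ := hP' (idx m) (mem_image_of_mem _ hm)
    rw [hidx m hm] at he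
    rw [mem_image]
    refine ⟨k', mem_filter.mpr ⟨mem_range.mpr hk', ?_⟩, he⟩
    rw [he]
    exact (hS m hm).1
  exact_mod_cast (card_le_card hsub).trans card_image_le

theorem col_orbit (n i : ℕ) :
    ∃ k, Col^[i] n = T^[k] n ∨ (T^[k] n % 2 = 1 ∧ Col^[i] n = 3 * T^[k] n + 1) := by
  induction i with
  | zero => exact ⟨0, Or.inl rfl⟩
  | succ i ih =>
    obtain ⟨k, h | ⟨h1, h2⟩⟩ := ih
    · rw [Function.iterate_succ_apply', h]
      rcases Nat.mod_two_eq_zero_or_one (T^[k] n) with h0 | h0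
      · refine ⟨k + 1, Or.inl ?_⟩
        rw [Function.iterate_succ_apply', Col, T, if_pos h0, if_pos h0]
      · refine ⟨k, Or.inr ⟨h0, ?_⟩⟩
        rw [Col, if_neg (by omega)]
    · rw [Function.iterate_succ_apply', h2]
      refine ⟨k + 1, Or.inl ?_⟩
      rw [Function.iterate_succ_apply', Col, if_pos (by omega), T, if_neg (by omega)]

theorem orbitCol : ∃ K : ℝ, 0 < K ∧ ∀ (n y x : ℕ), 0 < x → ∀ S : Finset ℕ,
    (∀ m ∈ S, (y ≤ m ∧ m < y + x) ∧ ∃ k, Col^[k] n = m) →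
      (S.card : ℝ) ≤ K * (x : ℝ) ^ ((19 : ℝ) / 20) := by
  classical
  obtain ⟨K, hK, hT⟩ := orbitT
  refine ⟨4 * K, by positivity, fun n y x hx S hS => ?_⟩
  let S1 : Finset ℕ := (Ico y (y + x)).filter (fun m => ∃ k, T^[k] n = m)
  let S2 : Finset ℕ := (Ico ((y - 1) / 3) ((y - 1) / 3 + x)).filter (fun m => ∃ k, T^[k] n = m)
  have hsub : S ⊆ S1 ∪ S2.image (fun m => 3 * m + 1) := by
    intro m hm
    obtain ⟨hmx, k, hk⟩ := hS m hm
    obtain ⟨k', h | ⟨h1, h2⟩⟩ := col_orbit n k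
    · apply mem_union_left
      rw [mem_filter, mem_Ico]
      exact ⟨hmx, k', by rw [← h, hk]⟩
    · apply mem_union_right
      rw [mem_image]
      refine ⟨T^[k'] n, ?_, by rw [← h2, hk]⟩
      rw [mem_filter, mem_Ico]
      exact ⟨by omega, k', rfl⟩
  set L := Nat.log 2 x with hL
  have hlog : 2 ^ L ≤ x := Nat.pow_log_le_self 2 hx.ne'
  have hlog2 : x < 2 ^ (L + 1) := Nat.lt_pow_succ_log_self (by norm_num) x
  have h1 := hT n (L + 1) y S1 (by
    intro m hm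
    rw [mem_filter, mem_Ico] at hm
    exact ⟨by omega, hm.2⟩)
  have h1' := hT n (L + 1) ((y - 1) / 3) S2 (by
    intro m hm
    rw [mem_filter, mem_Ico] at hm
    exact ⟨by omega, hm.2⟩)
  have h2 : S.card ≤ S1.card + S2.card := by
    have a1 := card_le_card hsub
    have a2 := card_union_le S1 (S2.image (fun m => 3 * m + 1))
    have a3 : (S2.image (fun m => 3 * m + 1)).card ≤ S2.card := card_image_le
    omega
  have h3 : (S.card : ℝ) ≤ S1.card + S2.card := by exact_mod_cast h2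
  have h4 : w ^ L ≤ (x : ℝ) ^ ((19 : ℝ) / 20) := by
    rw [w_pow_eq]
    apply Real.rpow_le_rpow (by positivity) _ (by norm_num)
    exact_mod_cast hlog
  have h5 : w ^ (L + 1) ≤ 2 * (x : ℝ) ^ ((19 : ℝ) / 20) := by
    rw [pow_succ]
    have hw := w_le
    have hw0 := w_pos
    have hp : 0 < w ^ L := pow_pos hw0 L
    nlinarith
  have h6 : K * w ^ (L + 1) ≤ K * (2 * (x : ℝ) ^ ((19 : ℝ) / 20)) :=
    mul_le_mul_of_nonneg_left h5 hK.le
  linarith

/-- segments of distinct elements -/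
theorem segment : ∃ K : ℝ, 0 < K ∧ ∀ (n L y x : ℕ), 0 < x →
    Set.InjOn (fun i => Col^[i] n) (range L : Set ℕ) →
    (((range L).filter (fun i => y ≤ Col^[i] n ∧ Col^[i] n < y + x)).card : ℝ)
      ≤ K * (x : ℝ) ^ ((19 : ℝ) / 20) := by
  classical
  obtain ⟨K, hK, h⟩ := orbitCol
  refine ⟨K, hK, fun n L y x hx hinj => ?_⟩
  have h1 := h n y x hx (((range L).filter
    (fun i => y ≤ Col^[i] n ∧ Col^[i] n < y + x)).image (fun i => Col^[i] n)) (by
    intro m hm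
    rw [mem_image] at hm
    obtain ⟨i, hi, rfl⟩ := hm
    exact ⟨(mem_filter.mp hi).2, i, rfl⟩)
  rwa [card_image_of_injOn] at h1
  intro a ha b hb hab
  exact hinj (mem_coe.mpr (mem_filter.mp ha).1) (mem_coe.mpr (mem_filter.mp hb).1) hab

theorem rpow_succ_le (M : ℕ) (hM : 1 ≤ M) :
    ((M + 1 : ℕ) : ℝ) ^ ((19 : ℝ) / 20) ≤ 2 * (M : ℝ) ^ ((19 : ℝ) / 20) := by
  have hM' : (1 : ℝ) ≤ M := by exact_mod_cast hM
  calc ((M + 1 : ℕ) : ℝ) ^ ((19 : ℝ) / 20) ≤ (2 * (M : ℝ)) ^ ((19 : ℝ) / 20) := by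
        apply Real.rpow_le_rpow (by positivity) _ (by norm_num)
        push_cast
        linarith
    _ = 2 ^ ((19 : ℝ) / 20) * (M : ℝ) ^ ((19 : ℝ) / 20) :=
        Real.mul_rpow (by norm_num) (by positivity)
    _ ≤ 2 * (M : ℝ) ^ ((19 : ℝ) / 20) := by
        apply mul_le_mul_of_nonneg_right _ (by positivity)
        exact w_le

theorem main1 : ∃ K : ℝ,
    (∀ n y x : ℕ, 0 < x → (({m : ℕ | y ≤ m ∧ m < y + x ∧ ∃ k : ℕ, Col^[k] n = m}).ncard : ℝ)
      ≤ K * (x : ℝ) ^ ((19 : ℝ) / 20)) ∧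
    (∀ n k M : ℕ, Col^[k] n = 1 → (∀ i < k, Col^[i] n ≠ 1) → (∀ i ≤ k, Col^[i] n ≤ M) →
      (k : ℝ) ≤ K * (M : ℝ) ^ ((19 : ℝ) / 20)) := by
  classical
  obtain ⟨K, hK, h⟩ := orbitCol
  obtain ⟨K', hK', h'⟩ := segment
  refine ⟨K + 2 * K', fun n y x hx => ?_, fun n k M h1 hlt hM => ?_⟩
  · have hfin : ({m : ℕ | y ≤ m ∧ m < y + x ∧ ∃ k : ℕ, Col^[k] n = m}).Finite :=
      (Set.finite_Iio (y + x)).subset fun m hm => hm.2.1
    rw [Set.ncard_eq_toFinset_card _ hfin]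
    refine (h n y x hx hfin.toFinset ?_).trans ?_
    · intro m hm
      have := (Set.Finite.mem_toFinset hfin).mp hm
      exact ⟨⟨this.1, this.2.1⟩, this.2.2⟩
    · have : (0 : ℝ) ≤ 2 * K' * (x : ℝ) ^ ((19 : ℝ) / 20) := by positivity
      linarith
  · have hMpos : 0 < M := by
      have := hM k le_rfl
      rw [h1] at this
      omega
    have hinj : Set.InjOn (fun i => Col^[i] n) (range (k + 1) : Set ℕ) := by
      have key : ∀ i j, i < j → j ≤ k → Col^[i] n ≠ Col^[j] n := by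
        intro i j hij hjk he
        have e1 : Col^[k - j] (Col^[j] n) = 1 := by
          rw [← Function.iterate_add_apply, show k - j + j = k by omega, h1]
        rw [← he, ← Function.iterate_add_apply] at e1
        exact hlt _ (by omega) e1
      intro i hi j hj hij
      rw [coe_range, Set.mem_Iio] at hi hj
      rcases lt_trichotomy i j with hc | hc | hc
      · exact (key i j hc (by omega) hij).elim
      · exact hc
      · exact (key j i hc (by omega) hij.symm).elim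
    have h2 := h' n (k + 1) 0 (M + 1) (by omega) hinj
    have h3 : (range (k + 1)).filter (fun i => 0 ≤ Col^[i] n ∧ Col^[i] n < 0 + (M + 1)) =
        range (k + 1) := by
      apply filter_true_of_mem
      intro i hi
      have := hM i (by rw [mem_range] at hi; omega)
      constructor <;> omega
    rw [h3, card_range] at h2
    have h4 := rpow_succ_le M hMpos
    have h5 : K' * ((M + 1 : ℕ) : ℝ) ^ ((19 : ℝ) / 20) ≤ K' * (2 * (M : ℝ) ^ ((19 : ℝ) / 20)) :=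
      mul_le_mul_of_nonneg_left h4 hK'.le
    push_cast at h2 h5
    have : (0 : ℝ) ≤ K * (M : ℝ) ^ ((19 : ℝ) / 20) := by positivity
    linarith

theorem main2 : ∃ N : ℕ, ∀ L ≥ N, ∀ n : ℕ, (∀ k ≤ L, Col^[k] n ≠ 1) →
    (∃ a b : ℕ, a < b ∧ b ≤ L ∧ Col^[a] n = Col^[b] n ∧ ∀ k : ℕ, Col^[k] n ≠ 1) ∨
    (∀ y : ℕ, (({i : ℕ | i ≤ L ∧ y ≤ Col^[i] n ∧
      ((Col^[i] n : ℕ) : ℝ) < y + (L : ℝ) ^ ((21 : ℝ) / 20)}).ncard : ℝ)
      ≤ (L : ℝ) ^ ((499 : ℝ) / 500)) := by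
  classical
  obtain ⟨K, hK, h⟩ := segment
  have hlim : Filter.Tendsto (fun n : ℕ => (n : ℝ) ^ ((1 : ℝ) / 2000)) Filter.atTop Filter.atTop :=
    (tendsto_rpow_atTop (by norm_num)).comp tendsto_natCast_atTop_atTop
  obtain ⟨N, hN⟩ := Filter.eventually_atTop.mp (hlim.eventually_ge_atTop (2 * K))
  refine ⟨max N 1, fun L hL n hno => ?_⟩
  have hn1 : 1 ≤ L := le_trans (le_max_right _ _) hL
  have hnN := hN L (le_trans (le_max_left _ _) hL)
  by_cases hrep : ∃ a b : ℕ, a < b ∧ b ≤ L ∧ Col^[a] n = Col^[b] n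
  · left
    obtain ⟨a, b, hab, hb, he⟩ := hrep
    refine ⟨a, b, hab, hb, he, fun k hk => ?_⟩
    obtain ⟨k', hk', he'⟩ := iterate_periodic Col n a b hab he k
    exact hno k' (by omega) (he'.trans hk)
  · right
    intro y
    have hinj : Set.InjOn (fun i => Col^[i] n) (range (L + 1) : Set ℕ) := by
      intro i hi j hj hij
      rw [coe_range, Set.mem_Iio] at hi hj
      by_contra hne
      rcases lt_or_gt_of_ne hne with hc | hc
      · exact hrep ⟨i, j, hc, by omega, hij⟩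
      · exact hrep ⟨j, i, hc, by omega, hij.symm⟩
    have hn0 : (0 : ℝ) < L := by exact_mod_cast hn1
    have hn1' : (1 : ℝ) ≤ L := by exact_mod_cast hn1
    set z : ℝ := (L : ℝ) ^ ((21 : ℝ) / 20) with hz
    have hz1 : 1 ≤ z := Real.one_le_rpow hn1' (by norm_num)
    have hz0 : 0 < z := by linarith
    have hx : 0 < ⌈z⌉₊ := Nat.ceil_pos.mpr hz0
    have h1 := h n (L + 1) y ⌈z⌉₊ hx hinj
    have hsub : {i : ℕ | i ≤ L ∧ y ≤ Col^[i] n ∧ ((Col^[i] n : ℕ) : ℝ) < y + z} ⊆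
        (((range (L + 1)).filter (fun i => y ≤ Col^[i] n ∧ Col^[i] n < y + ⌈z⌉₊) :
          Finset ℕ) : Set ℕ) := by
      intro i hi
      obtain ⟨hi1, hi2, hi3⟩ := hi
      rw [mem_coe, mem_filter, mem_range]
      refine ⟨by omega, hi2, ?_⟩
      have h5 : ((Col^[i] n : ℕ) : ℝ) < ((y + ⌈z⌉₊ : ℕ) : ℝ) := by
        push_cast
        linarith [Nat.le_ceil z]
      exact_mod_cast h5
    have hnc := Set.ncard_le_ncard hsub (Finset.finite_toSet _)
    rw [Set.ncard_coe_finset] at hnc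
    have hnc' : ((({i : ℕ | i ≤ L ∧ y ≤ Col^[i] n ∧ ((Col^[i] n : ℕ) : ℝ) < y + z}).ncard : ℕ) : ℝ)
        ≤ (((range (L + 1)).filter (fun i => y ≤ Col^[i] n ∧ Col^[i] n < y + ⌈z⌉₊)).card : ℝ) := by
      exact_mod_cast hnc
    refine hnc'.trans (h1.trans ?_)
    have h3 : ((⌈z⌉₊ : ℕ) : ℝ) ^ ((19 : ℝ) / 20) ≤ 2 * z ^ ((19 : ℝ) / 20) := by
      calc ((⌈z⌉₊ : ℕ) : ℝ) ^ ((19 : ℝ) / 20) ≤ (2 * z) ^ ((19 : ℝ) / 20) := by
            apply Real.rpow_le_rpow (by positivity) _ (by norm_num)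
            linarith [Nat.ceil_lt_add_one hz0.le]
        _ = 2 ^ ((19 : ℝ) / 20) * z ^ ((19 : ℝ) / 20) :=
            Real.mul_rpow (by norm_num) hz0.le
        _ ≤ 2 * z ^ ((19 : ℝ) / 20) := by
            apply mul_le_mul_of_nonneg_right _ (by positivity)
            exact w_le
    have h4 : z ^ ((19 : ℝ) / 20) = (L : ℝ) ^ ((399 : ℝ) / 400) := by
      rw [hz, ← Real.rpow_mul hn0.le]; norm_num
    have h5 : (L : ℝ) ^ ((499 : ℝ) / 500) =
        (L : ℝ) ^ ((1 : ℝ) / 2000) * (L : ℝ) ^ ((399 : ℝ) / 400) := by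
      rw [← Real.rpow_add hn0]; norm_num
    rw [h5]
    calc K * ((⌈z⌉₊ : ℕ) : ℝ) ^ ((19 : ℝ) / 20) ≤ K * (2 * (L : ℝ) ^ ((399 : ℝ) / 400)) := by
          rw [← h4]; exact mul_le_mul_of_nonneg_left h3 hK.le
      _ = (2 * K) * (L : ℝ) ^ ((399 : ℝ) / 400) := by ring
      _ ≤ _ := mul_le_mul_of_nonneg_right hnN (by positivity)

theorem main (C : ℕ → ℕ) (hC : ∀ m, C m = if m % 2 = 0 then m / 2 else 3 * m + 1) :
    (∃ K : ℝ,
      (∀ n y x : ℕ, 0 < x → (({m : ℕ | y ≤ m ∧ m < y + x ∧ ∃ k : ℕ, C^[k] n = m}).ncard : ℝ)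
        ≤ K * (x : ℝ) ^ ((19 : ℝ) / 20)) ∧
      (∀ n k M : ℕ, C^[k] n = 1 → (∀ i < k, C^[i] n ≠ 1) → (∀ i ≤ k, C^[i] n ≤ M) →
        (k : ℝ) ≤ K * (M : ℝ) ^ ((19 : ℝ) / 20))) ∧
    (∃ N : ℕ, ∀ L ≥ N, ∀ n : ℕ, (∀ k ≤ L, C^[k] n ≠ 1) →
      (∃ a b : ℕ, a < b ∧ b ≤ L ∧ C^[a] n = C^[b] n ∧ ∀ k : ℕ, C^[k] n ≠ 1) ∨
      (∀ y : ℕ, (({i : ℕ | i ≤ L ∧ y ≤ C^[i] n ∧
        ((C^[i] n : ℕ) : ℝ) < y + (L : ℝ) ^ ((21 : ℝ) / 20)}).ncard : ℝ)
        ≤ (L : ℝ) ^ ((499 : ℝ) / 500))) := by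
  have : C = Col := funext hC
  subst this
  exact ⟨main1, main2⟩

end Pool.Agent.Lib.MP_e43fce_nt_bt
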