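import Pool.Agent.Lib.MP_e43fce_nt_bt.Orbit

set_option autoImplicit false

namespace Pool.Agent.Results.MP_e43fce_nt.BoundedTrajectory

/-- Power saving for Collatz orbits in intervals, uniformly in the starting value and in the
interval, and its consequences for the total stopping time. -/
theorem result (C : ℕ → ℕ) (hC : ∀ m, C m = if m % 2 = 0 then m / 2 else 3 * m + 1) :
    (∃ K : ℝ,
      (∀ n y x : ℕ, 0 < x → (({m : ℕ | y ≤ m ∧ m < y + x ∧ ∃ k : ℕ, C^[k] n = m}).ncard : ℝ)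
        ≤ K * (x : ℝ) ^ ((19 : ℝ) / 20)) ∧
      (∀ n k M : ℕ, C^[k] n = 1 → (∀ i < k, C^[i] n ≠ 1) → (∀ i ≤ k, C^[i] n ≤ M) →
        (k : ℝ) ≤ K * (M : ℝ) ^ ((19 : ℝ) / 20))) ∧
    (∃ N : ℕ, ∀ L ≥ N, ∀ n : ℕ, (∀ k ≤ L, C^[k] n ≠ 1) →
      (∃ a b : ℕ, a < b ∧ b ≤ L ∧ C^[a] n = C^[b] n ∧ ∀ k : ℕ, C^[k] n ≠ 1) ∨
      (∀ y : ℕ, (({i : ℕ | i ≤ L ∧ y ≤ C^[i] n ∧
        ((C^[i] n : ℕ) : ℝ) < y + (L : ℝ) ^ ((21 : ℝ) / 20)}).ncard : ℝ)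
        ≤ (L : ℝ) ^ ((499 : ℝ) / 500))) :=
  Pool.Agent.Lib.MP_e43fce_nt_bt.main C hC

end Pool.Agent.Results.MP_e43fce_nt.BoundedTrajectory
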