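import Pool.Agent.Lib.MP_e43fce_nt.KLAll
import Pool.Agent.Lib.MP_e43fce_nt.KLCount
import Pool.Agent.Lib.MP_e43fce_nt.Gaps.Final

/-!
Short intervals contain many integers with small total stopping time.
-/

set_option autoImplicit false

open Real

namespace Pool.Agent.Results.MP_e43fce_nt.Gaps

open Pool.Agent.Lib.MP_e43fce_nt Pool.Agent.Lib.MP_e43fce_nt.Gaps

private lemma count : ∃ C : ℝ, ∃ X : ℕ, ∀ x : ℕ, X ≤ x → (x : ℝ) ^ (8802 / 10000 : ℝ) ≤
    ({n : ℕ | (1 ≤ n ∧ n ≤ x) ∧ ∃ k : ℕ, k ≤ n ∧ (k : ℝ) ≤ C * log n ∧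
      Col^[k] n = 1}.ncard : ℝ) := by
  obtain ⟨C, X, h⟩ := KL.main_of_cert (γ := 125 / 142) (γ' := 8802 / 10000) (M := 131071)
    (by unfold KL.th; norm_num) (by unfold KL.th; norm_num) (by norm_num) (by norm_num)
    (by norm_num) (KL.wt_nonneg _) (KL.wt_le _) KL.wt_two_pos KL.cert
  refine ⟨C, X, fun x hx => (h x hx).trans ?_⟩
  rw [← Set.ncard_coe_finset]
  apply Nat.cast_le.2
  apply Set.ncard_le_ncard
  · intro n hn
    rw [Finset.mem_coe, KL.F, Finset.mem_filter, Finset.mem_Icc] at hn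
    exact hn
  · apply Set.Finite.subset (Finset.finite_toSet (Finset.range (x + 1)))
    rintro n ⟨⟨_, hn2⟩, _⟩
    rw [Finset.mem_coe, Finset.mem_range]
    exact Nat.lt_succ_of_le hn2

/-- There are constants `c > 0`, `C`, `X` such that for every real `x ≥ X` the short interval
`[x, x + x / (log x) ^ c]` contains at least `x ^ 0.88` integers `n` whose Collatz orbit reaches `1`
in at most `min (n, C log n)` steps. -/
theorem result : ∃ c C X : ℝ, 0 < c ∧ ∀ x : ℝ, X ≤ x → x ^ (88 / 100 : ℝ) ≤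
    ({n : ℕ | (x ≤ n ∧ (n : ℝ) ≤ x + x / (Real.log x) ^ c) ∧
      ∃ k : ℕ, k ≤ n ∧ (k : ℝ) ≤ C * Real.log n ∧
        (fun m : ℕ => if m % 2 = 0 then m / 2 else 3 * m + 1)^[k] n = 1}.ncard : ℝ) :=
  final_of_count (by norm_num) (by norm_num) count

end Pool.Agent.Results.MP_e43fce_nt.Gaps
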