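import Pool.Agent.Lib.MP_e43fce_nt_bt.InjSet

set_option autoImplicit false

namespace Pool.Agent.Lib.MP_e43fce_nt_bt.RetiredNonMergingOrbits

/-- Power saving, uniform over all intervals, for every set of positive integers that the Collatz
map sends into itself injectively (any number of orbits and cycles, no two of which merge), and
in particular for the set of all periodic points of the Collatz map. -/
theorem result (C : ℕ → ℕ) (hC : ∀ m, C m = if m % 2 = 0 then m / 2 else 3 * m + 1) :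
    ∃ K : ℝ, (∀ S : Set ℕ, (∀ n ∈ S, C n ∈ S) → Set.InjOn C S →
      ∀ y x : ℕ, 0 < x → (({m : ℕ | m ∈ S ∧ y ≤ m ∧ m < y + x}).ncard : ℝ)
        ≤ K * (x : ℝ) ^ ((19 : ℝ) / 20)) ∧
      ∀ x : ℕ, 0 < x → (({m : ℕ | 1 ≤ m ∧ m ≤ x ∧ ∃ k, 0 < k ∧ C^[k] m = m}).ncard : ℝ)
        ≤ K * (x : ℝ) ^ ((19 : ℝ) / 20) :=
  Pool.Agent.Lib.MP_e43fce_nt_bt.mainSet C hC

end Pool.Agent.Lib.MP_e43fce_nt_bt.RetiredNonMergingOrbits
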