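import Mathlib

set_option autoImplicit false

namespace Pool.Agent.Lib.MP_e43fce_nt_bt

/-- accelerated Collatz map -/
def T (m : ℕ) : ℕ := if m % 2 = 0 then m / 2 else (3 * m + 1) / 2

/-- number of odd terms among `m, T m, ..., T^(j-1) m` -/
def od : ℕ → ℕ → ℕ
  | 0, _ => 0
  | j + 1, m => m % 2 + od j (T m)

theorem od_congr (j m m' : ℕ) (h : m % 2 ^ j = m' % 2 ^ j) : od j m = od j m' := by
  induction j generalizing m m' with
  | zero => rfl
  | succ j ih =>
    have h2 : m % 2 = m' % 2 := by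
      have := congrArg (· % 2) h
      simpa [Nat.mod_mod_of_dvd _ (dvd_pow_self 2 (Nat.succ_ne_zero j))] using this
    rw [od, od, h2]
    congr 1
    apply ih
    have hm := Nat.div_add_mod m (2 ^ (j + 1))
    have hm' := Nat.div_add_mod m' (2 ^ (j + 1))
    rw [← h] at hm'
    set r := m % 2 ^ (j + 1)
    set a := m / 2 ^ (j + 1)
    set b := m' / 2 ^ (j + 1)
    have e : 2 ^ (j + 1) = 2 * 2 ^ j := by rw [pow_succ]; ring
    rw [e] at hm hm'
    unfold T
    rw [← h2]
    split_ifs with h0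
    · have e1 : m / 2 = r / 2 + 2 ^ j * a := by
        rw [← hm, show 2 * 2 ^ j * a + r = r + 2 * (2 ^ j * a) by ring,
          Nat.add_mul_div_left _ _ (by norm_num)]
      have e2 : m' / 2 = r / 2 + 2 ^ j * b := by
        rw [← hm', show 2 * 2 ^ j * b + r = r + 2 * (2 ^ j * b) by ring,
          Nat.add_mul_div_left _ _ (by norm_num)]
      rw [e1, e2, Nat.add_mul_mod_self_left, Nat.add_mul_mod_self_left]
    · have e1 : (3 * m + 1) / 2 = (3 * r + 1) / 2 + 2 ^ j * (3 * a) := by
        rw [← hm, show 3 * (2 * 2 ^ j * a + r) + 1 = 3 * r + 1 + 2 * (2 ^ j * (3 * a)) by ring,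
          Nat.add_mul_div_left _ _ (by norm_num)]
      have e2 : (3 * m' + 1) / 2 = (3 * r + 1) / 2 + 2 ^ j * (3 * b) := by
        rw [← hm', show 3 * (2 * 2 ^ j * b + r) + 1 = 3 * r + 1 + 2 * (2 ^ j * (3 * b)) by ring,
          Nat.add_mul_div_left _ _ (by norm_num)]
      rw [e1, e2, Nat.add_mul_mod_self_left, Nat.add_mul_mod_self_left]

theorem sum_range_two_mul {α : Type*} [AddCommMonoid α] (g : ℕ → α) (n : ℕ) :
    ∑ m ∈ Finset.range (2 * n), g m = ∑ k ∈ Finset.range n, (g (2 * k) + g (2 * k + 1)) := by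
  induction n with
  | zero => simp
  | succ n ih =>
    rw [show 2 * (n + 1) = 2 * n + 1 + 1 by ring, Finset.sum_range_succ, Finset.sum_range_succ,
      Finset.sum_range_succ, ih, add_assoc]

theorem sum_weight (t : ℝ) (j : ℕ) :
    ∑ m ∈ Finset.range (2 ^ j), t ^ od j m = (1 + t) ^ j := by
  induction j with
  | zero => simp [od]
  | succ j ih =>
    rw [pow_succ, mul_comm, sum_range_two_mul, Finset.sum_add_distrib]
    have h1 : ∑ k ∈ Finset.range (2 ^ j), t ^ od (j + 1) (2 * k) = (1 + t) ^ j := by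
      rw [← ih]
      apply Finset.sum_congr rfl
      intro k _
      rw [od]
      congr 1
      rw [show 2 * k % 2 = 0 by omega, zero_add, T, if_pos (by omega)]
      congr 1
      omega
    have h2 : ∑ k ∈ Finset.range (2 ^ j), t ^ od (j + 1) (2 * k + 1) = t * (1 + t) ^ j := by
      rw [← ih, Finset.mul_sum]
      refine Finset.sum_bij (fun k _ => (3 * k + 2) % 2 ^ j) ?_ ?_ ?_ ?_
      · intro k _
        exact Finset.mem_range.mpr (Nat.mod_lt _ (by positivity))
      · intro k hk k' hk' h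
        have h3 : 3 * k + 2 ≡ 3 * k' + 2 [MOD 2 ^ j] := h
        have h4 : 3 * k ≡ 3 * k' [MOD 2 ^ j] := Nat.ModEq.add_right_cancel' 2 h3
        have hc : Nat.gcd (2 ^ j) 3 = 1 := Nat.Coprime.pow_left j (by norm_num)
        have h5 : k ≡ k' [MOD 2 ^ j] := Nat.ModEq.cancel_left_of_coprime hc h4
        exact Nat.ModEq.eq_of_lt_of_lt h5 (Finset.mem_range.mp hk) (Finset.mem_range.mp hk')
      · -- surjective by counting
        intro b hb
        have hinj : Set.InjOn (fun k => (3 * k + 2) % 2 ^ j) (Finset.range (2 ^ j) : Set ℕ) := by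
          intro k hk k' hk' h
          have h3 : 3 * k + 2 ≡ 3 * k' + 2 [MOD 2 ^ j] := h
          have h4 : 3 * k ≡ 3 * k' [MOD 2 ^ j] := Nat.ModEq.add_right_cancel' 2 h3
          have hc : Nat.gcd (2 ^ j) 3 = 1 := Nat.Coprime.pow_left j (by norm_num)
          have h5 : k ≡ k' [MOD 2 ^ j] := Nat.ModEq.cancel_left_of_coprime hc h4
          exact Nat.ModEq.eq_of_lt_of_lt h5 (by simpa using hk) (by simpa using hk')
        have hsurj := Finset.surjOn_of_injOn_of_card_le (s := Finset.range (2 ^ j))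
          (t := Finset.range (2 ^ j)) (fun k => (3 * k + 2) % 2 ^ j)
          (by
            intro k _
            simp only [Finset.coe_range, Set.mem_Iio]
            exact Nat.mod_lt _ (by positivity)) hinj le_rfl
        obtain ⟨k, hk, hkb⟩ := hsurj (Finset.mem_coe.mpr hb)
        exact ⟨k, Finset.mem_coe.mp hk, hkb⟩
      · intro k _
        rw [od, show (2 * k + 1) % 2 = 1 by omega, pow_add, pow_one]
        congr 2
        rw [T, if_neg (by omega)]
        apply od_congr
        rw [Nat.mod_mod]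
        congr 1
        omega
    rw [h1, h2, pow_succ]
    ring

theorem growth (j m : ℕ) : 2 ^ j * T^[j] m ≤ 3 ^ od j m * (m + 2 ^ j) := by
  induction j generalizing m with
  | zero => simp [od]
  | succ j ih =>
    have h := ih (T m)
    rw [Function.iterate_succ_apply, od]
    rcases Nat.mod_two_eq_zero_or_one m with h0 | h0
    · rw [h0, zero_add]
      have e : 2 * T m ≤ m := by unfold T; rw [if_pos h0]; omega
      calc 2 ^ (j + 1) * T^[j] (T m) = 2 * (2 ^ j * T^[j] (T m)) := by rw [pow_succ]; ring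
        _ ≤ 2 * (3 ^ od j (T m) * (T m + 2 ^ j)) := Nat.mul_le_mul_left _ h
        _ = 3 ^ od j (T m) * (2 * T m + 2 ^ (j + 1)) := by rw [pow_succ]; ring
        _ ≤ _ := Nat.mul_le_mul_left _ (by omega)
    · rw [h0, pow_add, pow_one]
      have e : 2 * T m = 3 * m + 1 := by unfold T; rw [if_neg (by omega)]; omega
      have hp : 1 ≤ 2 ^ (j + 1) := Nat.one_le_pow _ _ (by norm_num)
      calc 2 ^ (j + 1) * T^[j] (T m) = 2 * (2 ^ j * T^[j] (T m)) := by rw [pow_succ]; ring
        _ ≤ 2 * (3 ^ od j (T m) * (T m + 2 ^ j)) := Nat.mul_le_mul_left _ h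
        _ = 3 ^ od j (T m) * (2 * T m + 2 ^ (j + 1)) := by rw [pow_succ]; ring
        _ ≤ 3 ^ od j (T m) * (3 * (m + 2 ^ (j + 1))) := Nat.mul_le_mul_left _ (by omega)
        _ = _ := by ring

end Pool.Agent.Lib.MP_e43fce_nt_bt
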