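import Pool.Agent.Lib.MP_e43fce_nt_bt.Count

set_option autoImplicit false

namespace Pool.Agent.Lib.MP_e43fce_nt_bt

open Finset

theorem growth_lower (j m : ℕ) : 3 ^ od j m * m ≤ 2 ^ j * T^[j] m := by
  induction j generalizing m with
  | zero => simp [od]
  | succ j ih =>
    have h := ih (T m)
    rw [Function.iterate_succ_apply, od]
    rcases Nat.mod_two_eq_zero_or_one m with h0 | h0
    · rw [h0, zero_add]
      have e : 2 * T m = m := by unfold T; rw [if_pos h0]; omega
      calc 3 ^ od j (T m) * m = 3 ^ od j (T m) * (2 * T m) := by rw [e]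
        _ = 2 * (3 ^ od j (T m) * T m) := by ring
        _ ≤ 2 * (2 ^ j * T^[j] (T m)) := Nat.mul_le_mul_left _ h
        _ = 2 ^ (j + 1) * T^[j] (T m) := by rw [pow_succ]; ring
    · rw [h0, pow_add, pow_one]
      have e : 2 * T m = 3 * m + 1 := by unfold T; rw [if_neg (by omega)]; omega
      calc 3 * 3 ^ od j (T m) * m ≤ 3 ^ od j (T m) * (3 * m + 1) := by
            have : 3 ^ od j (T m) * (3 * m + 1) = 3 * 3 ^ od j (T m) * m + 3 ^ od j (T m) := by ring
            rw [this]
            exact Nat.le_add_right _ _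
        _ = 3 ^ od j (T m) * (2 * T m) := by rw [e]
        _ = 2 * (3 ^ od j (T m) * T m) := by ring
        _ ≤ 2 * (2 ^ j * T^[j] (T m)) := Nat.mul_le_mul_left _ h
        _ = 2 ^ (j + 1) * T^[j] (T m) := by rw [pow_succ]; ring

/-- `v = 3^(19/20)` -/
noncomputable def v : ℝ := (3 : ℝ) ^ ((19 : ℝ) / 20)

theorem v_pos : 0 < v := by unfold v; positivity

theorem v_ge : 2 ≤ v := by
  have h20 : v ^ 20 = 3 ^ 19 := by
    unfold v
    rw [← Real.rpow_natCast, ← Real.rpow_mul (by norm_num)]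
    norm_num
  have h : (2 : ℝ) ^ 20 ≤ v ^ 20 := by rw [h20]; norm_num
  exact le_of_pow_le_pow_left₀ (by norm_num) v_pos.le h

theorem w_pow_eq (i : ℕ) : w ^ i = ((2 : ℝ) ^ i) ^ ((19 : ℝ) / 20) := by
  unfold w
  rw [← Real.rpow_natCast ((2 : ℝ) ^ ((19 : ℝ) / 20)) i, ← Real.rpow_mul (by norm_num),
    mul_comm ((19 : ℝ) / 20), Real.rpow_mul (by norm_num), Real.rpow_natCast]

theorem v_pow_eq (i : ℕ) : v ^ i = ((3 : ℝ) ^ i) ^ ((19 : ℝ) / 20) := by
  unfold v
  rw [← Real.rpow_natCast ((3 : ℝ) ^ ((19 : ℝ) / 20)) i, ← Real.rpow_mul (by norm_num),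
    mul_comm ((19 : ℝ) / 20), Real.rpow_mul (by norm_num), Real.rpow_natCast]

theorem w_pow_le (i a : ℕ) (h : 2 ^ i ≤ 6 * 3 ^ a) : w ^ i ≤ 6 * v ^ a := by
  rw [w_pow_eq, v_pow_eq]
  have h' : ((2 : ℝ) ^ i) ≤ 6 * 3 ^ a := by exact_mod_cast h
  calc ((2 : ℝ) ^ i) ^ ((19 : ℝ) / 20) ≤ (6 * 3 ^ a) ^ ((19 : ℝ) / 20) :=
        Real.rpow_le_rpow (by positivity) h' (by norm_num)
    _ = (6 : ℝ) ^ ((19 : ℝ) / 20) * ((3 : ℝ) ^ a) ^ ((19 : ℝ) / 20) :=
        Real.mul_rpow (by norm_num) (by positivity)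
    _ ≤ 6 * ((3 : ℝ) ^ a) ^ ((19 : ℝ) / 20) := by
        apply mul_le_mul_of_nonneg_right _ (by positivity)
        calc (6 : ℝ) ^ ((19 : ℝ) / 20) ≤ 6 ^ (1 : ℝ) :=
              Real.rpow_le_rpow_of_exponent_le (by norm_num) (by norm_num)
          _ = 6 := Real.rpow_one _

theorem v_pow_le (j A : ℕ) (h : 128 * 3 ^ A ≤ 2 ^ j) : 80 * v ^ A ≤ w ^ j := by
  have h' : (128 : ℝ) * 3 ^ A ≤ (2 : ℝ) ^ j := by exact_mod_cast h
  have h1 : ((128 : ℝ) * 3 ^ A) ^ ((19 : ℝ) / 20) ≤ w ^ j := by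
    rw [w_pow_eq]
    exact Real.rpow_le_rpow (by positivity) h' (by norm_num)
  rw [Real.mul_rpow (by norm_num) (by positivity), ← v_pow_eq,
    show (128 : ℝ) = 2 ^ 7 by norm_num, ← w_pow_eq] at h1
  have h2 : (80 : ℝ) ≤ w ^ 7 := by
    have h3 : ((19 : ℝ) / 10) ^ 7 ≤ w ^ 7 := pow_le_pow_left₀ (by norm_num) w_ge 7
    have h4 : (80 : ℝ) ≤ (19 / 10) ^ 7 := by norm_num
    linarith
  have h5 : 0 < v ^ A := pow_pos v_pos A
  nlinarith

theorem geom_v (A : ℕ) : ∑ a ∈ range (A + 1), v ^ a ≤ 2 * v ^ A := by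
  induction A with
  | zero => simp
  | succ A ih =>
    rw [sum_range_succ, pow_succ v A]
    have h := v_ge
    have hp : 0 < v ^ A := pow_pos v_pos A
    nlinarith

theorem exists_J' : ∃ J : ℕ, ∀ j ≥ J, 128 * 3 ^ (306 * j / 485) ≤ 2 ^ j := by
  have h0 : 3 ^ 306 < 2 ^ 485 := by decide +kernel
  have h0' : (3 : ℝ) ^ 306 < 2 ^ 485 := by exact_mod_cast h0
  obtain ⟨N, hN⟩ : ∃ N, N = 485 := ⟨_, rfl⟩
  rw [← hN] at h0'
  have h1 : (1 : ℝ) < 2 ^ N / 3 ^ 306 := by
    rw [lt_div_iff₀ (by positivity), one_mul]; exact h0'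
  have h2 := tendsto_pow_atTop_atTop_of_one_lt h1
  obtain ⟨J, hJ⟩ := Filter.eventually_atTop.mp (h2.eventually_gt_atTop (128 ^ N))
  refine ⟨J, fun j hj => ?_⟩
  have h3 := hJ j hj
  rw [div_pow, lt_div_iff₀ (by positivity)] at h3
  have h4 : 128 ^ N * (3 ^ 306) ^ j < (2 ^ N) ^ j := by exact_mod_cast h3
  by_contra hcon
  push Not at hcon
  have h5 : (2 ^ j) ^ N ≤ (128 * 3 ^ (306 * j / 485)) ^ N := Nat.pow_le_pow_left hcon.le N
  have h6 : (128 * 3 ^ (306 * j / 485)) ^ N ≤ 128 ^ N * (3 ^ 306) ^ j := by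
    rw [mul_pow, ← pow_mul, ← pow_mul]
    apply Nat.mul_le_mul_left
    apply Nat.pow_le_pow_right (by norm_num)
    rw [hN]
    exact Nat.div_mul_le_self _ _
  have h7 : (2 ^ j) ^ N = (2 ^ N) ^ j := by rw [← pow_mul, ← pow_mul, mul_comm]
  rw [h7] at h5
  omega

/-- location of the image of a window -/
theorem window_image (j y m : ℕ) (h1 : y ≤ m) (h2 : m < y + 2 ^ j) :
    3 ^ od j m * y / 2 ^ j ≤ T^[j] m ∧ T^[j] m < 3 ^ od j m * y / 2 ^ j + (2 * 3 ^ od j m + 1) := by
  have hp : 0 < 2 ^ j := by positivity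
  constructor
  · apply Nat.div_le_of_le_mul
    exact (Nat.mul_le_mul_left _ h1).trans (growth_lower j m)
  · have hg := growth j m
    have h3 : 2 ^ j * T^[j] m ≤ 3 ^ od j m * y + 2 ^ j * (2 * 3 ^ od j m) := by
      calc 2 ^ j * T^[j] m ≤ 3 ^ od j m * (m + 2 ^ j) := hg
        _ ≤ 3 ^ od j m * (y + 2 ^ j + 2 ^ j) := Nat.mul_le_mul_left _ (by omega)
        _ = _ := by ring
    have h4 : T^[j] m ≤ (3 ^ od j m * y + 2 ^ j * (2 * 3 ^ od j m)) / 2 ^ j := by
      rw [Nat.le_div_iff_mul_le hp, mul_comm]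
      exact h3
    rw [Nat.add_mul_div_left _ _ hp] at h4
    omega

/-- Main counting estimate for windows and segments of distinct elements. -/
theorem count_window : ∃ K : ℝ, 0 < K ∧ ∀ n P : ℕ,
    Set.InjOn (fun k => T^[k] n) (range P : Set ℕ) → ∀ j y,
    (((range P).filter (fun k => y ≤ T^[k] n ∧ T^[k] n < y + 2 ^ j)).card : ℝ) ≤ K * w ^ j := by
  obtain ⟨J, hJ⟩ := exists_J'
  refine ⟨2 ^ J + 5, by positivity, fun n P hinj j => ?_⟩
  have hw1 : 1 ≤ w := by linarith [w_ge]
  have h4 : (0 : ℝ) < 2 ^ J := by positivity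
  have triv : ∀ j y, ((range P).filter (fun k => y ≤ T^[k] n ∧ T^[k] n < y + 2 ^ j)).card
      ≤ 2 ^ j := by
    intro j y
    have := card_le_card_of_injOn
      (s := (range P).filter (fun k => y ≤ T^[k] n ∧ T^[k] n < y + 2 ^ j))
      (t := Finset.Ico y (y + 2 ^ j)) (fun k => T^[k] n)
      (by
        intro k hk
        have := (mem_filter.mp hk).2
        exact mem_Ico.mpr this)
      (by
        intro a ha b hb h
        apply hinj _ _ h
        · exact mem_coe.mpr (mem_filter.mp ha).1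
        · exact mem_coe.mpr (mem_filter.mp hb).1)
    rwa [Nat.card_Ico, Nat.add_sub_cancel_left] at this
  induction j using Nat.strong_induction_on with
  | _ j ih =>
    intro y
    rcases Nat.lt_or_ge j J with hlt | hge
    · have h := triv j y
      have h1 : (((range P).filter (fun k => y ≤ T^[k] n ∧ T^[k] n < y + 2 ^ j)).card : ℝ)
          ≤ 2 ^ j := by exact_mod_cast h
      have h2 : (2 : ℝ) ^ j ≤ 2 ^ J := pow_le_pow_right₀ (by norm_num) hlt.le
      have h3 : 1 ≤ w ^ j := one_le_pow₀ hw1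
      nlinarith
    · obtain ⟨A, hA⟩ : ∃ A, A = 306 * j / 485 := ⟨_, rfl⟩
      have hJj := hJ j hge
      rw [← hA] at hJj
      -- splitting
      have hsub : (range P).filter (fun k => y ≤ T^[k] n ∧ T^[k] n < y + 2 ^ j) ⊆
          ((range P).filter (fun k => (y ≤ T^[k] n ∧ T^[k] n < y + 2 ^ j) ∧
            T^[k] n % 2 ^ j ∈ bad j)) ∪
          (((range (A + 1)).biUnion (fun a => (range P).filter (fun k => k + j < P ∧
            (3 ^ a * y / 2 ^ j ≤ T^[k + j] n ∧ T^[k + j] n < 3 ^ a * y / 2 ^ j +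
              2 ^ (Nat.clog 2 (2 * 3 ^ a + 1)))))) ∪ Finset.Ico (P - j) P) := by
        intro k hk
        rw [mem_filter, mem_range] at hk
        rw [mem_union, mem_union, mem_filter, mem_biUnion, mem_range, mem_Ico]
        by_cases hb : T^[k] n % 2 ^ j ∈ bad j
        · exact Or.inl ⟨hk.1, hk.2, hb⟩
        · right
          rcases Nat.lt_or_ge (k + j) P with h | h
          · left
            have hodc : od j (T^[k] n % 2 ^ j) = od j (T^[k] n) := by
              apply od_congr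
              rw [Nat.mod_mod]
            have hod : 485 * od j (T^[k] n) ≤ 306 * j := by
              by_contra hcon
              apply hb
              refine mem_filter.mpr ⟨mem_range.mpr (Nat.mod_lt _ (by positivity)), ?_⟩
              rw [hodc]
              omega
            refine ⟨od j (T^[k] n), mem_range.mpr (by omega), ?_⟩
            rw [mem_filter, mem_range]
            obtain ⟨w1, w2⟩ := window_image j y (T^[k] n) hk.2.1 hk.2.2
            rw [← Function.iterate_add_apply, Nat.add_comm j k] at w1 w2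
            refine ⟨hk.1, h, w1, w2.trans_le ?_⟩
            exact Nat.add_le_add_left (Nat.le_pow_clog (by norm_num) _) _
          · right
            constructor <;> omega
      have c1 : ((range P).filter (fun k => (y ≤ T^[k] n ∧ T^[k] n < y + 2 ^ j) ∧
            T^[k] n % 2 ^ j ∈ bad j)).card ≤ (bad j).card := by
        apply card_le_card_of_injOn (fun k => T^[k] n % 2 ^ j)
        · intro k hk
          exact (mem_filter.mp hk).2.2
        · intro a ha b hb h
          have ha' := mem_filter.mp ha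
          have hb' := mem_filter.mp hb
          apply hinj (mem_coe.mpr ha'.1) (mem_coe.mpr hb'.1)
          have h' : T^[a] n ≡ T^[b] n [MOD 2 ^ j] := h
          show T^[a] n = T^[b] n
          obtain ⟨a1, a2⟩ := ha'.2.1
          obtain ⟨b1, b2⟩ := hb'.2.1
          obtain ⟨s, hs⟩ := Nat.exists_eq_add_of_le a1
          obtain ⟨t, ht⟩ := Nat.exists_eq_add_of_le b1
          rw [hs, ht] at h'
          have h'' := Nat.ModEq.add_left_cancel' y h'
          have := Nat.ModEq.eq_of_lt_of_lt h'' (by omega) (by omega)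
          omega
      have c2 : ∀ a ∈ range (A + 1), (((range P).filter (fun k => k + j < P ∧
            (3 ^ a * y / 2 ^ j ≤ T^[k + j] n ∧ T^[k + j] n < 3 ^ a * y / 2 ^ j +
              2 ^ (Nat.clog 2 (2 * 3 ^ a + 1))))).card : ℝ) ≤ (2 ^ J + 5) * (6 * v ^ a) := by
        intro a ha
        rw [mem_range] at ha
        have hpa : 1 ≤ 3 ^ a := Nat.one_le_pow _ _ (by norm_num)
        have haA : 3 ^ a ≤ 3 ^ A := Nat.pow_le_pow_right (by norm_num) (by omega)
        -- size of the clog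
        have hc1 : 2 ^ (Nat.clog 2 (2 * 3 ^ a + 1)) ≤ 6 * 3 ^ a := by
          have h5 := Nat.pow_pred_clog_lt_self (b := 2) (by norm_num) (x := 2 * 3 ^ a + 1) (by omega)
          have h6 : 0 < Nat.clog 2 (2 * 3 ^ a + 1) := Nat.clog_pos (by norm_num) (by omega)
          obtain ⟨i, hi⟩ : ∃ i, Nat.clog 2 (2 * 3 ^ a + 1) = i + 1 :=
            ⟨Nat.clog 2 (2 * 3 ^ a + 1) - 1, by omega⟩
          rw [hi] at h5 ⊢
          rw [Nat.pred_succ] at h5
          rw [pow_succ]
          omega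
        have hclt : Nat.clog 2 (2 * 3 ^ a + 1) < j := by
          by_contra hcon
          push Not at hcon
          have : 2 ^ j ≤ 2 ^ (Nat.clog 2 (2 * 3 ^ a + 1)) := Nat.pow_le_pow_right (by norm_num) hcon
          omega
        have h7 : ((range P).filter (fun k => k + j < P ∧
            (3 ^ a * y / 2 ^ j ≤ T^[k + j] n ∧ T^[k + j] n < 3 ^ a * y / 2 ^ j +
              2 ^ (Nat.clog 2 (2 * 3 ^ a + 1))))).card ≤
            ((range P).filter (fun k => 3 ^ a * y / 2 ^ j ≤ T^[k] n ∧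
              T^[k] n < 3 ^ a * y / 2 ^ j + 2 ^ (Nat.clog 2 (2 * 3 ^ a + 1)))).card := by
          apply card_le_card_of_injOn (fun k => k + j)
          · intro k hk
            have := (mem_filter.mp hk).2
            exact mem_filter.mpr ⟨mem_range.mpr this.1, this.2⟩
          · intro a _ b _ h
            simpa using h
        have h8 := ih _ hclt (3 ^ a * y / 2 ^ j)
        have h9 := w_pow_le _ a hc1
        calc (((range P).filter (fun k => k + j < P ∧
            (3 ^ a * y / 2 ^ j ≤ T^[k + j] n ∧ T^[k + j] n < 3 ^ a * y / 2 ^ j +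
              2 ^ (Nat.clog 2 (2 * 3 ^ a + 1))))).card : ℝ) ≤
            (((range P).filter (fun k => 3 ^ a * y / 2 ^ j ≤ T^[k] n ∧
              T^[k] n < 3 ^ a * y / 2 ^ j + 2 ^ (Nat.clog 2 (2 * 3 ^ a + 1)))).card : ℝ) := by
              exact_mod_cast h7
          _ ≤ _ := h8
          _ ≤ _ := mul_le_mul_of_nonneg_left h9 (by positivity)
      have c3 : (Finset.Ico (P - j) P).card ≤ j := by
        rw [Nat.card_Ico]; omega
      have hcard := card_le_card hsub
      have hcard2 := hcard.trans (card_union_le _ _)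
      have hcard3 := hcard2.trans (Nat.add_le_add_left (card_union_le _ _) _)
      have hcard4 := hcard3.trans (Nat.add_le_add c1 (Nat.add_le_add card_biUnion_le c3))
      have hcard5 : (((range P).filter (fun k => y ≤ T^[k] n ∧ T^[k] n < y + 2 ^ j)).card : ℝ) ≤
          (bad j).card + ((∑ a ∈ range (A + 1), (((range P).filter (fun k => k + j < P ∧
            (3 ^ a * y / 2 ^ j ≤ T^[k + j] n ∧ T^[k + j] n < 3 ^ a * y / 2 ^ j +
              2 ^ (Nat.clog 2 (2 * 3 ^ a + 1))))).card : ℝ)) + j) := by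
        exact_mod_cast hcard4
      have hsum : (∑ a ∈ range (A + 1), (((range P).filter (fun k => k + j < P ∧
            (3 ^ a * y / 2 ^ j ≤ T^[k + j] n ∧ T^[k + j] n < 3 ^ a * y / 2 ^ j +
              2 ^ (Nat.clog 2 (2 * 3 ^ a + 1))))).card : ℝ)) ≤ (2 ^ J + 5) * (12 * v ^ A) := by
        refine (sum_le_sum c2).trans ?_
        rw [← mul_sum, ← mul_sum]
        have := geom_v A
        have h5 : 6 * ∑ a ∈ range (A + 1), v ^ a ≤ 12 * v ^ A := by linarith
        exact mul_le_mul_of_nonneg_left h5 (by positivity)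
      have hb := card_bad j
      have hl := le_w_pow j
      have hv := v_pow_le j A hJj
      have hp : 0 < w ^ j := pow_pos w_pos j
      have hfin : (2 ^ J + 5 : ℝ) * (12 * v ^ A) ≤ (2 ^ J + 5) * (w ^ j / 4) := by
        apply mul_le_mul_of_nonneg_left _ (by positivity)
        linarith
      have : (0 : ℝ) < 2 ^ J * w ^ j := by positivity
      nlinarith

end Pool.Agent.Lib.MP_e43fce_nt_bt
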